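import Pool.Agent.H36.RDom2

/-!
r-Dominating Set parameterized by the distance to split graphs: W[2]-hard for r = 2,
fixed-parameter tractable for every r at least 3.
-/

open Pool.Agent.H36.Par Pool.Agent.H36.RDom

theorem Pool.Agent.Results.MP_918064_lc.Dichotomy.result :
    PReduces DomSet kOf Valid (RDomSet 2) par ∧ ∀ r, 3 ≤ r → FPTOn Valid (RDomSet r) par :=
  ⟨hard, fun _ => fpt⟩
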